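import Pool.Agent.N658.FF.Stm4

/-! # Project FF: filling bounds the degeneracy (worker: helper284) -/

open scoped BigOperators InnerProductSpace Matrix Classical ComplexOrder

noncomputable section

namespace Pool.Agent.N284.FF

open Pool.Agent.TH235.PP Pool.Agent.N658.FF

lemma ip_sum_smul_left {S J : Type*} [Fintype S] [Fintype J] (a : J → ℂ) (f : J → S → ℂ)
    (x : S → ℂ) : ip (∑ j, a j • f j) x = ∑ j, (starRingEnd ℂ) (a j) * ip (f j) x := by
  unfold ip
  simp only [Finset.sum_apply, Pi.smul_apply, smul_eq_mul, map_sum, map_mul, Finset.sum_mul,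
    Finset.mul_sum]
  rw [Finset.sum_comm]
  refine Finset.sum_congr rfl fun j _ => Finset.sum_congr rfl fun s _ => ?_
  ring

lemma ip_sum_smul_right {S J : Type*} [Fintype S] [Fintype J] (a : J → ℂ) (f : J → S → ℂ)
    (x : S → ℂ) : ip x (∑ j, a j • f j) = ∑ j, a j * ip x (f j) := by
  unfold ip
  simp only [Finset.sum_apply, Pi.smul_apply, smul_eq_mul, Finset.mul_sum]
  rw [Finset.sum_comm]
  refine Finset.sum_congr rfl fun j _ => Finset.sum_congr rfl fun s _ => ?_
  ring

lemma ip_add_right {S : Type*} [Fintype S] (x y z : S → ℂ) : ip x (y + z) = ip x y + ip x z := by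
  unfold ip
  rw [← Finset.sum_add_distrib]
  refine Finset.sum_congr rfl fun s _ => ?_
  rw [Pi.add_apply]
  ring

lemma ip_smul_right {S : Type*} [Fintype S] (x y : S → ℂ) (c : ℂ) : ip x (c • y) = c * ip x y := by
  unfold ip
  rw [Finset.mul_sum]
  refine Finset.sum_congr rfl fun s _ => ?_
  rw [Pi.smul_apply, smul_eq_mul]
  ring

lemma step {d R : ℕ} (h : BoxOp d R) (L : ℕ) [NeZero L] (l w : ℕ) (hF : Fill h L l w)
    (C : Finset (Site L)) (c : Site L) :
    Module.finrank ℂ (offSpace h L w (insert c C)) ≤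
      d ^ (2 * (w + 2 * l) ^ 2) * Module.finrank ℂ (offSpace h L w C) := by
  obtain ⟨v, hv⟩ : ∃ v : Site L, v = (c.1 - (l : ZMod L), c.2 - (l : ZMod L)) := ⟨_, rfl⟩
  have hc : c = (v.1 + (l : ZMod L), v.2 + (l : ZMod L)) := by
    rw [hv]
    ext
    · simp
    · simp
  obtain ⟨m, hm⟩ : ∃ m, m = w + 2 * l := ⟨_, rfl⟩
  let b := Module.finBasis ℂ (offSpace h L w C)
  let I := (Fin m × Fin m → Fin d) × (Fin m × Fin m → Fin d)
  let Φ : offSpace h L w (insert c C) →ₗ[ℂ]
      (I × Fin (Module.finrank ℂ (offSpace h L w C)) → ℂ) :=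
    { toFun := fun ψ z => ip ((b z.2 : offSpace h L w C) : (Site L → Fin d) → ℂ)
        (tp (loc v z.1.1 z.1.2) *ᵥ (ψ : (Site L → Fin d) → ℂ))
      map_add' := by
        intro x y
        funext z
        show ip _ (_ *ᵥ (((x : (Site L → Fin d) → ℂ)) + (y : (Site L → Fin d) → ℂ))) = _
        rw [Matrix.mulVec_add, ip_add_right]
        rfl
      map_smul' := by
        intro a x
        funext z
        show ip _ (_ *ᵥ (a • (x : (Site L → Fin d) → ℂ))) = _
        rw [Matrix.mulVec_smul, ip_smul_right]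
        rfl }
  have hinj : Function.Injective Φ := by
    rw [injective_iff_map_eq_zero]
    intro ψ hψ
    by_contra hne
    have hne' : (ψ : (Site L → Fin d) → ℂ) ≠ 0 := fun h0 => hne (Subtype.ext h0)
    have hmem : (ψ : (Site L → Fin d) → ℂ) ∈
        offSpace h L w (insert (v.1 + (l : ZMod L), v.2 + (l : ZMod L)) C) := by
      rw [← hc]
      exact ψ.2
    obtain ⟨O, φ, hφ, hO⟩ := hF C v _ hmem hne'
    apply hO
    subst hm
    have hz : ∀ (p q : Fin (w + 2 * l) × Fin (w + 2 * l) → Fin d)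
        (j : Fin (Module.finrank ℂ (offSpace h L w C))),
        ip ((b j : offSpace h L w C) : (Site L → Fin d) → ℂ)
          (tp (loc v p q) *ᵥ (ψ : (Site L → Fin d) → ℂ)) = 0 := fun p q j =>
      congrFun hψ ((p, q), j)
    have hφ2 : φ = ∑ j, (b.repr ⟨φ, hφ⟩) j • ((b j : offSpace h L w C) : (Site L → Fin d) → ℂ) := by
      have h1 := congrArg (Submodule.subtype (offSpace h L w C)) (b.sum_repr ⟨φ, hφ⟩)
      rw [map_sum] at h1
      simp only [map_smul, Submodule.subtype_apply] at h1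
      exact h1.symm
    have hall : ∀ p q : Fin (w + 2 * l) × Fin (w + 2 * l) → Fin d,
        ip φ (tp (loc v p q) *ᵥ (ψ : (Site L → Fin d) → ℂ)) = 0 := by
      intro p q
      rw [hφ2, ip_sum_smul_left]
      apply Finset.sum_eq_zero
      intro j _
      rw [hz, mul_zero]
    rw [term_eq, Matrix.sum_mulVec]
    have e1 : ∑ pq : (Fin (w + 2 * l) × Fin (w + 2 * l) → Fin d) ×
          (Fin (w + 2 * l) × Fin (w + 2 * l) → Fin d),
        (O pq.1 pq.2 • tp (loc v pq.1 pq.2)) *ᵥ (ψ : (Site L → Fin d) → ℂ) =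
        ∑ pq : (Fin (w + 2 * l) × Fin (w + 2 * l) → Fin d) ×
          (Fin (w + 2 * l) × Fin (w + 2 * l) → Fin d),
        O pq.1 pq.2 • (tp (loc v pq.1 pq.2) *ᵥ (ψ : (Site L → Fin d) → ℂ)) := by
      refine Finset.sum_congr rfl fun pq _ => ?_
      rw [Matrix.smul_mulVec]
    rw [e1, ip_sum_smul_right]
    apply Finset.sum_eq_zero
    intro pq _
    rw [hall, mul_zero]
  have hle := LinearMap.finrank_le_finrank_of_injective (f := Φ) hinj
  refine hle.trans (le_of_eq ?_)
  rw [Module.finrank_fintype_fun_eq_card, Fintype.card_prod, Fintype.card_fin]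
  congr 1
  show Fintype.card ((Fin m × Fin m → Fin d) × (Fin m × Fin m → Fin d)) = _
  rw [Fintype.card_prod, Fintype.card_fun, Fintype.card_prod, Fintype.card_fin, Fintype.card_fin,
    ← pow_add, ← hm]
  congr 1
  ring

theorem fill : StmFill := by
  intro d R h L _ l w hd hw h0 hF C
  have hd1 : (1 : ℝ) ≤ d := by exact_mod_cast hd
  have hlog : 0 ≤ Real.log d := Real.log_nonneg hd1
  have hw1 : (1 : ℝ) ≤ w := by exact_mod_cast hw
  have hdpos : (0 : ℝ) < d := by linarith
  have hpow : ∀ n : ℕ, ((d : ℝ)) ^ n = Real.exp (Real.log d * n) := by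
    intro n
    rw [mul_comm, Real.exp_nat_mul, Real.exp_log hdpos]
  have hm : ((w : ℝ) + 2 * l) ≤ (1 + 2 * l) * w := by
    have hl0 : (0 : ℝ) ≤ l := Nat.cast_nonneg l
    nlinarith
  have hm2 : ((w : ℝ) + 2 * l) ^ 2 ≤ (1 + 2 * l) ^ 2 * (w : ℝ) ^ 2 := by
    rw [← mul_pow]
    exact pow_le_pow_left₀ (by positivity) hm 2
  rcases C.eq_empty_or_nonempty with hC | hC
  · rw [hC, Finset.card_empty]
    have e : 2 * Real.log d * (1 + 2 * (l : ℝ)) ^ 2 * ((0 : ℕ) : ℝ) * (w : ℝ) ^ 2 = 0 := by
      push_cast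
      ring
    rw [e, Real.exp_zero]
    exact_mod_cast h0
  · have hC1 : (1 : ℝ) ≤ C.card := by exact_mod_cast hC.card_pos
    rcases Nat.lt_or_ge L (w + 2 * l) with hL | hL
    · -- the whole space
      have h1 : Module.finrank ℂ (offSpace h L w C) ≤ d ^ (L * L) := by
        refine (Submodule.finrank_le _).trans (le_of_eq ?_)
        rw [Module.finrank_fintype_fun_eq_card, Fintype.card_fun, Fintype.card_fin,
          Fintype.card_prod, ZMod.card]
      have h2 : (Module.finrank ℂ (offSpace h L w C) : ℝ) ≤ (d : ℝ) ^ (L * L) := by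
        exact_mod_cast h1
      refine h2.trans ?_
      rw [hpow]
      apply Real.exp_le_exp.2
      have h3 : ((L * L : ℕ) : ℝ) ≤ ((w : ℝ) + 2 * l) ^ 2 := by
        push_cast
        rw [← pow_two]
        apply pow_le_pow_left₀ (Nat.cast_nonneg _)
        have : L ≤ w + 2 * l := hL.le
        exact_mod_cast this
      have h4 : 0 ≤ (1 + 2 * (l : ℝ)) ^ 2 * (w : ℝ) ^ 2 := by positivity
      calc Real.log d * ((L * L : ℕ) : ℝ) ≤ Real.log d * ((1 + 2 * l) ^ 2 * (w : ℝ) ^ 2) := by
            gcongr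
            exact h3.trans hm2
        _ ≤ 2 * (Real.log d * ((1 + 2 * l) ^ 2 * (w : ℝ) ^ 2)) := by
            have : 0 ≤ Real.log d * ((1 + 2 * l) ^ 2 * (w : ℝ) ^ 2) := by positivity
            linarith
        _ = 2 * (Real.log d * ((1 + 2 * l) ^ 2 * (w : ℝ) ^ 2)) * 1 := (mul_one _).symm
        _ ≤ 2 * (Real.log d * ((1 + 2 * l) ^ 2 * (w : ℝ) ^ 2)) * C.card := by gcongr
        _ = _ := by ring
    · have hF' := hF hL
      have hmain : ∀ C : Finset (Site L), Module.finrank ℂ (offSpace h L w C) ≤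
          (d ^ (2 * (w + 2 * l) ^ 2)) ^ C.card := by
        intro C
        induction C using Finset.induction_on with
        | empty => simpa using h0
        | insert c C hc ih =>
          refine (step h L l w hF' C c).trans ?_
          rw [Finset.card_insert_of_notMem hc, pow_succ, mul_comm]
          exact Nat.mul_le_mul_right _ ih
      have h2 : (Module.finrank ℂ (offSpace h L w C) : ℝ) ≤
          ((d : ℝ) ^ (2 * (w + 2 * l) ^ 2)) ^ C.card := by
        exact_mod_cast hmain C
      refine h2.trans ?_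
      rw [← pow_mul, hpow]
      apply Real.exp_le_exp.2
      push_cast
      calc Real.log d * (2 * ((w : ℝ) + 2 * l) ^ 2 * C.card) ≤
            Real.log d * (2 * ((1 + 2 * l) ^ 2 * (w : ℝ) ^ 2) * C.card) := by gcongr
        _ = _ := by ring

end Pool.Agent.N284.FF
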